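import Pool.Agent.H86.CovC

set_option autoImplicit false

namespace Pool.Agent.Results.MP_2695c4_gt.DoubleCover

open Filter

/-- uniformly locally finite -/
def ULF (X : Type) [MetricSpace X] : Prop :=
  ∀ r : ℝ, 0 < r → ∃ N : ℕ, ∀ x : X, (Metric.closedBall x r).encard ≤ N

/-- coarse map -/
def CoarseMap {X Y : Type} [MetricSpace X] [MetricSpace Y] (f : X → Y) : Prop :=
  ∀ r : ℝ, 0 < r → ∃ s : ℝ, 0 < s ∧ ∀ x x', dist x x' ≤ r → dist (f x) (f x') ≤ s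

/-- uniformly finite-to-one map -/
def FinToOne {X Y : Type} (f : X → Y) : Prop :=
  ∃ N : ℕ, ∀ y, (f ⁻¹' {y}).encard ≤ N

/-- `X` coarsely embeds into a (real) Hilbert space -/
def EmbHilb (X : Type) [MetricSpace X] : Prop :=
  ∃ (H : Type) (_ : NormedAddCommGroup H) (_ : InnerProductSpace ℝ H) (_ : CompleteSpace H)
    (g : X → H) (ρm ρp : ℝ → ℝ), (∀ t, 0 ≤ t → 0 ≤ ρm t ∧ 0 ≤ ρp t) ∧ Tendsto ρm atTop atTop ∧
      ∀ x x', ρm (dist x x') ≤ ‖g x - g x'‖ ∧ ‖g x - g x'‖ ≤ ρp (dist x x')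

open Pool.Agent.H86.Cov Pool.Agent.H86.Roe

theorem result : ∃ (X Y : Type) (_ : MetricSpace X) (_ : MetricSpace Y) (f : X → Y),
    ULF X ∧ ULF Y ∧ CoarseMap f ∧ FinToOne f ∧ EmbHilb Y ∧ ¬ EmbHilb X := by
  letI := mX
  letI := mY
  refine ⟨XX, YY, mX, mY, pr, fun r _ => ?_, fun r _ => ?_, fun r hr => ?_, ⟨2, fun y => ?_⟩,
    ⟨HH, inferInstance, inferInstance, inferInstance, Φ, id, id, fun t ht => ⟨ht, ht⟩, tendsto_id,
      fun y y' => ⟨(dist_eq_norm (Φ y) (Φ y')).le, (dist_eq_norm (Φ y) (Φ y')).ge⟩⟩, ?_⟩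
  · obtain ⟨N, hN⟩ := ball_fin ρ gd Sigma.fst lev_fin ⌈r⌉₊
    refine ⟨N, fun x => ?_⟩
    obtain ⟨F, h1, h2⟩ := hN x
    refine le_trans (Set.encard_le_encard (t := F) fun x' h => h2 x' ?_) ?_
    · exact (Nat.cast_le (α := ℝ)).mp (le_trans (Metric.mem_closedBall'.mp h) (Nat.le_ceil r))
    · rw [Set.encard_coe_eq_coe_finsetCard]
      exact_mod_cast h1
  · obtain ⟨N, hN⟩ := ulf_Y r
    refine ⟨N, fun y => le_trans (Set.encard_le_encard fun y' h => ?_) (hN y)⟩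
    exact (dist_eq_norm (Φ y') (Φ y)).ge.trans h
  · obtain ⟨C, hC⟩ := Metric.isBounded_iff.mp
      (lev_fin (β := fun n => L n × Λ n) ⌈r⌉₊).isBounded
    refine ⟨max (2 * ⌈r⌉₊ + 1) C, lt_max_of_lt_left (by positivity), fun x x' h => ?_⟩
    have h1 : dN (Gr ρ gd) Sigma.fst x x' ≤ ⌈r⌉₊ :=
      (Nat.cast_le (α := ℝ)).mp (le_trans h (Nat.le_ceil r))
    rcases dN_cases (Gr ρ gd) Sigma.fst x x' with ⟨p, hp⟩ | hp
    · refine le_max_of_le_left ((dist_eq_norm (Φ (pr x)) (Φ (pr x'))).le.trans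
        ((Φ_walk p).trans ?_))
      have : (p.length : ℝ) ≤ ⌈r⌉₊ := by exact_mod_cast hp.le.trans h1
      linarith
    · exact le_max_of_le_right (hC (show x.1 < _ by omega) (show x'.1 < _ by omega))
  · refine le_trans (Set.encard_le_encard_of_injOn (f := fun x : XX => x.2.2) (t := Set.univ)
      (fun _ _ => trivial) ?_) (by simp)
    rintro ⟨n, u, ε⟩ h ⟨n', u', ε'⟩ h' h''
    have h1 : pr ⟨n, u, ε⟩ = pr ⟨n', u', ε'⟩ := h.trans h'.symm
    cases h1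
    cases h''
    rfl
  · rintro ⟨H, _, _, _, g, ρm, ρp, -, h1, h2⟩
    refine no_emb g (max (ρp 0) (ρp 1)) (fun x x' h => (h2 x x').2.trans ?_) fun M => ?_
    · show ρp ((dN (Gr ρ gd) Sigma.fst x x' : ℕ) : ℝ) ≤ _
      rcases Nat.le_one_iff_eq_zero_or_eq_one.mp h with h | h <;> simp [h]
    · obtain ⟨t, ht⟩ := eventually_atTop.mp (h1.eventually_ge_atTop M)
      refine ⟨⌈t⌉₊, fun x x' h => (ht _ ?_).trans (h2 x x').1⟩
      exact (Nat.le_ceil t).trans ((Nat.cast_le (α := ℝ)).mpr h)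

end Pool.Agent.Results.MP_2695c4_gt.DoubleCover
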